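import Mathlib
set_option autoImplicit false
namespace Pool.Agent.Results.MP_72646e_co.LeeAnticodes
open Finset

/-- Lee distance on `ℤ/q`. -/
def lee {q : ℕ} (a b : ZMod q) : ℕ := min (a - b).val (q - (a - b).val)

/-- Lee distance on `(ℤ/q)^n`. -/
def leeDist {q n : ℕ} (x y : Fin n → ZMod q) : ℕ := ∑ i, lee (x i) (y i)

/-- `A` has Lee diameter at most `D`. -/
def DiamLE {q n : ℕ} (A : Finset (Fin n → ZMod q)) (D : ℕ) : Prop :=
  ∀ x ∈ A, ∀ y ∈ A, leeDist x y ≤ D

/-- The diametric number `N_L(q,n,D)`. -/
noncomputable def NL (q n D : ℕ) : ℕ :=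
  sSup {k : ℕ | ∃ A : Finset (Fin n → ZMod q), DiamLE A D ∧ A.card = k}

lemma lee_eq {q : ℕ} [NeZero q] (a b : ZMod q) : lee a b = (a - b).valMinAbs.natAbs :=
  (ZMod.valMinAbs_natAbs_eq_min _).symm

lemma lee_le_half {q : ℕ} [NeZero q] (a b : ZMod q) : lee a b ≤ q / 2 := by
  rw [lee_eq]; exact ZMod.natAbs_valMinAbs_le _

lemma lee_le_natAbs {q : ℕ} [NeZero q] (a b : ZMod q) (y : ℤ) (h : a - b = (y : ZMod q)) :
    lee a b ≤ y.natAbs := by
  rw [lee_eq]
  apply ZMod.natAbs_min_of_le_div_two q _ _ _ (ZMod.natAbs_valMinAbs_le _)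
  rw [ZMod.coe_valMinAbs, h]

lemma closed_univ {q : ℕ} [NeZero q] (T : Finset (ZMod q)) (hT : T.Nonempty)
    (h : ∀ x ∈ T, x + 1 ∈ T) : T = univ := by
  obtain ⟨x0, hx0⟩ := hT
  have key : ∀ k : ℕ, x0 + (k : ZMod q) ∈ T := by
    intro k
    induction k with
    | zero => simpa using hx0
    | succ k ih => have := h _ ih; push_cast; rwa [← add_assoc]
  ext y
  simp only [mem_univ, iff_true]
  have := key (y - x0).val
  rw [ZMod.natCast_val, ZMod.cast_id] at this
  simpa using this

lemma grow {q : ℕ} [NeZero q] (G : Finset (ZMod q)) (hG : G.Nonempty) (c : ZMod q) (j : ℕ) :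
    min q (G.card + j) ≤
      (univ.filter (fun x : ZMod q => ∃ i ≤ j, x - c - (i : ZMod q) ∈ G)).card := by
  induction j with
  | zero =>
    refine le_trans (min_le_right _ _) ?_
    have : (G.image (fun x => x + c)).card = G.card :=
      card_image_of_injective _ (add_left_injective c)
    rw [add_zero, ← this]
    apply card_le_card
    intro x hx
    rw [mem_image] at hx
    obtain ⟨g, hg, rfl⟩ := hx
    simp only [mem_filter, mem_univ, true_and]
    exact ⟨0, le_refl _, by simpa using hg⟩
  | succ j ih =>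
    set T := univ.filter (fun x : ZMod q => ∃ i ≤ j, x - c - (i : ZMod q) ∈ G) with hTdef
    set T' := univ.filter (fun x : ZMod q => ∃ i ≤ j + 1, x - c - (i : ZMod q) ∈ G) with hT'def
    have hsub : T ⊆ T' := by
      intro x hx
      simp only [hTdef, hT'def, mem_filter, mem_univ, true_and] at hx ⊢
      obtain ⟨i, hi, h⟩ := hx
      exact ⟨i, by omega, h⟩
    have hshift : ∀ x ∈ T, x + 1 ∈ T' := by
      intro x hx
      simp only [hTdef, hT'def, mem_filter, mem_univ, true_and] at hx ⊢
      obtain ⟨i, hi, h⟩ := hx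
      refine ⟨i + 1, by omega, ?_⟩
      push_cast
      convert h using 1
      ring
    have hne : T.Nonempty := by
      obtain ⟨g, hg⟩ := hG
      refine ⟨g + c, ?_⟩
      simp only [hTdef, mem_filter, mem_univ, true_and]
      exact ⟨0, Nat.zero_le _, by simpa using hg⟩
    by_cases hEq : T = T'
    · have hu : T = univ := closed_univ T hne (fun x hx => by rw [hEq]; exact hshift x hx)
      rw [← hEq, hu, card_univ, ZMod.card]
      exact min_le_left _ _
    · have hlt : T.card < T'.card := card_lt_card (hsub.ssubset_of_ne hEq)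
      omega

lemma cross {q : ℕ} [NeZero q] (F G : Finset (ZMod q)) (hF : F.Nonempty) (hG : G.Nonempty)
    (k : ℕ) (hk : k < q / 2) (h : ∀ f ∈ F, ∀ g ∈ G, lee f g ≤ k) :
    F.card + G.card ≤ 2 * k + 2 := by
  have hg := grow G hG ((k + 1 : ℕ) : ZMod q) (q - 2 * k - 2)
  set T := univ.filter (fun x : ZMod q => ∃ i ≤ q - 2 * k - 2,
    x - ((k + 1 : ℕ) : ZMod q) - (i : ZMod q) ∈ G) with hTdef
  have hdisj : Disjoint F T := by
    rw [Finset.disjoint_left]
    intro x hxF hxT
    simp only [hTdef, mem_filter, mem_univ, true_and] at hxT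
    obtain ⟨i, hi, hxG⟩ := hxT
    have hl := h x hxF _ hxG
    have hd : x - (x - ((k + 1 : ℕ) : ZMod q) - (i : ZMod q)) = ((k + 1 + i : ℕ) : ZMod q) := by
      push_cast; ring
    unfold lee at hl
    rw [hd, ZMod.val_natCast_of_lt (by omega)] at hl
    omega
  have hc : F.card + T.card ≤ q := by
    rw [← card_union_of_disjoint hdisj]
    calc (F ∪ T).card ≤ (univ : Finset (ZMod q)).card := card_le_univ _
      _ = q := by rw [card_univ, ZMod.card]
  have h1 : 1 ≤ F.card := hF.card_pos
  omega

lemma two_sum_le (b : ℕ → ℕ) (T c : ℕ) (h : ∀ i, i < T → b i + b (T - 1 - i) ≤ c) :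
    2 * ∑ i ∈ range T, b i ≤ T * c := by
  have h1 : ∑ i ∈ range T, b (T - 1 - i) = ∑ i ∈ range T, b i := Finset.sum_range_reflect b T
  calc 2 * ∑ i ∈ range T, b i = ∑ i ∈ range T, b i + ∑ i ∈ range T, b (T - 1 - i) := by
        rw [h1]; ring
    _ = ∑ i ∈ range T, (b i + b (T - 1 - i)) := by rw [Finset.sum_add_distrib]
    _ ≤ ∑ _i ∈ range T, c := Finset.sum_le_sum (fun i hi => h i (mem_range.mp hi))
    _ = T * c := by rw [Finset.sum_const, card_range, smul_eq_mul]

lemma sum_split (f : ℕ → ℕ) (p : ℕ) :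
    ∑ i ∈ range (2 * p + 1), f i = ∑ j ∈ range p, (f (2 * j) + f (2 * j + 1)) + f (2 * p) := by
  induction p with
  | zero => simp
  | succ p ih =>
    rw [show 2 * (p + 1) + 1 = 2 * p + 1 + 1 + 1 by ring, Finset.sum_range_succ,
      Finset.sum_range_succ, ih, Finset.sum_range_succ]
    ring_nf

lemma odd_sum_le (b : ℕ → ℕ) (p c d e : ℕ)
    (h1 : ∀ j, j < p → b (2 * j) + b (2 * p - 2 * j - 1) ≤ c)
    (h2 : ∀ j, j < p → b (2 * j + 1) + b (2 * p - 2 * j) ≤ d)
    (h3 : b (2 * p) + b 0 ≤ e) :
    2 * ∑ i ∈ range (2 * p + 1), b i ≤ p * (c + d) + e := by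
  have hr : ∑ i ∈ range (2 * p + 1), b (2 * p - i) = ∑ i ∈ range (2 * p + 1), b i := by
    have := Finset.sum_range_reflect b (2 * p + 1)
    rw [← this]
    apply Finset.sum_congr rfl
    intro i hi
    congr 1
  have hs1 := sum_split b p
  have hs2 := sum_split (fun i => b (2 * p - i)) p
  rw [hr] at hs2
  have h4 : 2 * ∑ i ∈ range (2 * p + 1), b i =
      ∑ j ∈ range p, ((b (2 * j) + b (2 * p - 2 * j - 1)) + (b (2 * j + 1) + b (2 * p - 2 * j)))
      + (b (2 * p) + b 0) := by
    have e1 : 2 * ∑ i ∈ range (2 * p + 1), b i =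
      (∑ j ∈ range p, (b (2 * j) + b (2 * j + 1)) + b (2 * p)) +
      (∑ j ∈ range p, (b (2 * p - 2 * j) + b (2 * p - (2 * j + 1))) + b (2 * p - 2 * p)) := by
      rw [two_mul]
      nth_rewrite 1 [hs1]
      rw [hs2]
    rw [e1, Nat.sub_self]
    have e2 : ∑ j ∈ range p, ((b (2 * j) + b (2 * p - 2 * j - 1)) +
        (b (2 * j + 1) + b (2 * p - 2 * j))) =
        ∑ j ∈ range p, (b (2 * j) + b (2 * j + 1)) +
        ∑ j ∈ range p, (b (2 * p - 2 * j) + b (2 * p - (2 * j + 1))) := by
      rw [← Finset.sum_add_distrib]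
      apply Finset.sum_congr rfl
      intro j _
      have : 2 * p - (2 * j + 1) = 2 * p - 2 * j - 1 := by omega
      rw [this]; ring
    rw [e2]; ring
  rw [h4]
  have h5 : ∑ j ∈ range p, ((b (2 * j) + b (2 * p - 2 * j - 1)) +
      (b (2 * j + 1) + b (2 * p - 2 * j))) ≤ ∑ _j ∈ range p, (c + d) :=
    Finset.sum_le_sum (fun j hj => add_le_add (h1 j (mem_range.mp hj)) (h2 j (mem_range.mp hj)))
  rw [Finset.sum_const, card_range, smul_eq_mul] at h5
  exact add_le_add h5 h3

lemma numeric (q m S T : ℕ) (b : ℕ → ℕ) (hm : m = q / 2) (hS : S ≤ 2 * m)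
    (hbq : ∀ i, b i ≤ q) (hpos : ∀ i, i < T → 0 < b i) (hzero : ∀ i, T ≤ i → b i = 0)
    (hT : T ≤ q)
    (pair : ∀ i j, i < T → j < T → i + j ≤ 2 * m → S < m + (i + j + 3) / 2 →
      b i + b j + 2 * ((i + j + 3) / 2) ≤ 2 * S + 2) :
    ∑ i ∈ range T, b i ≤ max (q * (S - m)) ((S ^ 2 + 1) / 2) := by
  rcases Nat.eq_zero_or_pos T with hT0 | hTpos
  · subst hT0; simp
  by_cases hA : T < 2 * (S - m)
  · -- strip case
    refine le_trans ?_ (le_max_left _ _)
    set z := S - m with hz
    have hle : ∑ i ∈ range T, b i ≤ ∑ i ∈ range (2 * z), b i :=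
      Finset.sum_le_sum_of_subset (by
        intro i hi; rw [mem_range] at hi ⊢; omega)
    have h2 := two_sum_le b (2 * z) q (by
      intro i hi
      by_cases h1 : i < T
      · by_cases h3 : 2 * z - 1 - i < T
        · have hp := pair i (2 * z - 1 - i) h1 h3 (by omega) (by omega)
          have : (i + (2 * z - 1 - i) + 3) / 2 = z + 1 := by omega
          rw [this] at hp
          omega
        · rw [hzero (2 * z - 1 - i) (by omega)]
          have := hbq i; omega
      · rw [hzero i (by omega)]
        have := hbq (2 * z - 1 - i); omega)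
    have h3 : 2 * ∑ i ∈ range (2 * z), b i ≤ 2 * (q * z) := by
      calc 2 * ∑ i ∈ range (2 * z), b i ≤ 2 * z * q := h2
        _ = 2 * (q * z) := by ring
    omega
  · by_cases hD : T = 2 * m + 1
    · refine le_trans ?_ (le_max_left _ _)
      have h2 := two_sum_le b T (2 * (S - m)) (by
        intro i hi
        have hp := pair i (T - 1 - i) hi (by omega) (by omega) (by omega)
        have : (i + (T - 1 - i) + 3) / 2 = m + 1 := by omega
        rw [this] at hp
        omega)
      have h3 : T * (2 * (S - m)) ≤ 2 * (q * (S - m)) := by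
        calc T * (2 * (S - m)) = 2 * (T * (S - m)) := by ring
          _ ≤ 2 * (q * (S - m)) := by
            apply Nat.mul_le_mul_left
            exact Nat.mul_le_mul_right _ hT
      omega
    · refine le_trans ?_ (le_max_right _ _)
      rcases Nat.even_or_odd' T with ⟨p, hp | hp⟩
      · have h2 := two_sum_le b T (2 * (S - p)) (by
          intro i hi
          have hp' := pair i (T - 1 - i) hi (by omega) (by omega) (by omega)
          have : (i + (T - 1 - i) + 3) / 2 = p + 1 := by omega
          rw [this] at hp'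
          omega)
        have hpS : p ≤ S := by
          have hp' := pair 0 (T - 1 - 0) (by omega) (by omega) (by omega) (by omega)
          have : (0 + (T - 1 - 0) + 3) / 2 = p + 1 := by omega
          rw [this] at hp'
          omega
        obtain ⟨r, rfl⟩ := Nat.exists_eq_add_of_le hpS
        rw [Nat.add_sub_cancel_left, hp] at h2
        rw [Nat.le_div_iff_mul_le (by norm_num)]
        rw [hp]
        have h4 : ∑ i ∈ range (2 * p), b i ≤ 2 * (p * r) := by
          have : 2 * p * (2 * r) = 2 * (2 * (p * r)) := by ring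
          omega
        nlinarith [sq_nonneg ((p : ℤ) - r), Nat.mul_le_mul_right 2 h4,
          show 4 * (p * r) ≤ (p + r) ^ 2 from by nlinarith [Nat.le_total p r, four_mul_le_sq_add p r]]
      · have hpS : p + 1 ≤ S := by
          have hp' := pair (2 * p) 0 (by omega) (by omega) (by omega) (by omega)
          have h7 : (2 * p + 0 + 3) / 2 = p + 1 := by omega
          rw [h7] at hp'
          have h8 := hpos (2 * p) (by omega)
          have h9 := hpos 0 (by omega)
          omega
        have h2 := odd_sum_le b p (2 * S - 2 * p) (2 * S - 2 * p - 2) (2 * S - 2 * p) (by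
            intro j hj
            have hp' := pair (2 * j) (2 * p - 2 * j - 1) (by omega) (by omega) (by omega)
              (by omega)
            have : (2 * j + (2 * p - 2 * j - 1) + 3) / 2 = p + 1 := by omega
            rw [this] at hp'
            omega) (by
            intro j hj
            have hp' := pair (2 * j + 1) (2 * p - 2 * j) (by omega) (by omega) (by omega)
              (by omega)
            have : (2 * j + 1 + (2 * p - 2 * j) + 3) / 2 = p + 2 := by omega
            rw [this] at hp'
            omega) (by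
            have hp' := pair (2 * p) 0 (by omega) (by omega) (by omega) (by omega)
            have h7 : (2 * p + 0 + 3) / 2 = p + 1 := by omega
            rw [h7] at hp'
            omega)
        obtain ⟨r, rfl⟩ := Nat.exists_eq_add_of_le hpS
        rw [hp]
        rw [Nat.le_div_iff_mul_le (by norm_num)]
        have e1 : 2 * (p + 1 + r) - 2 * p = 2 * r + 2 := by omega
        have e2 : 2 * r + 2 - 2 = 2 * r := by omega
        rw [e1, e2] at h2
        have h8 : p * (2 * r + 2 + 2 * r) + (2 * r + 2) ≤ (p + 1 + r) ^ 2 + 1 := by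
          zify
          nlinarith [sq_nonneg ((p : ℤ) - r)]
        omega


/-- number of `x` with `i < h x` -/
def lay {q : ℕ} [NeZero q] (h : ZMod q → ℕ) (i : ℕ) : Finset (ZMod q) :=
  univ.filter (fun x => i < h x)

lemma layer_sum {q : ℕ} [NeZero q] (h : ZMod q → ℕ) (hq : ∀ x, h x ≤ q) :
    ∑ x, h x = ∑ i ∈ range q, (lay h i).card := by
  have h1 : ∀ x : ZMod q, h x = ∑ i ∈ range q, (if i < h x then 1 else 0) := by
    intro x
    rw [← Finset.card_filter]
    have : (range q).filter (fun i => i < h x) = range (h x) := by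
      ext i
      simp only [mem_filter, mem_range]
      have := hq x
      omega
    rw [this, card_range]
  calc ∑ x, h x = ∑ x : ZMod q, ∑ i ∈ range q, (if i < h x then 1 else 0) :=
        Finset.sum_congr rfl (fun x _ => h1 x)
    _ = ∑ i ∈ range q, ∑ x : ZMod q, (if i < h x then 1 else 0) := Finset.sum_comm
    _ = ∑ i ∈ range q, (lay h i).card := by
      apply Finset.sum_congr rfl
      intro i _
      rw [lay, Finset.card_filter]

/-- The bound for a function on the cycle whose values satisfy the two-fibre inequality. -/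
lemma fun_bound {q : ℕ} [NeZero q] (D : ℕ) (hD : D < 2 * (q / 2)) (h : ZMod q → ℕ)
    (hq : ∀ x, h x ≤ q)
    (hd : ∀ x y, 0 < h x → 0 < h y → lee x y ≤ D)
    (hp : ∀ x y, 0 < h x → 0 < h y → D - lee x y < q / 2 →
      h x + h y ≤ 2 * (D - lee x y) + 2) :
    ∑ x, h x ≤ max (q * (D + 1 - q / 2)) (((D + 1) ^ 2 + 1) / 2) := by
  classical
  set T := univ.sup h with hTdef
  have hTq : T ≤ q := Finset.sup_le (fun x _ => hq x)
  have hle : ∀ x, h x ≤ T := fun x => Finset.le_sup (f := h) (mem_univ x)
  have hzero : ∀ i, T ≤ i → (lay h i).card = 0 := by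
    intro i hi
    rw [card_eq_zero, lay, filter_eq_empty_iff]
    intro x _
    have := hle x
    omega
  have hpos : ∀ i, i < T → 0 < (lay h i).card := by
    intro i hi
    obtain ⟨x, -, hx⟩ := (Finset.lt_sup_iff (f := h) (s := univ) (a := i)).mp hi
    apply card_pos.mpr
    exact ⟨x, by simp only [lay, mem_filter, mem_univ, true_and]; exact hx⟩
  have hbq : ∀ i, (lay h i).card ≤ q := by
    intro i
    calc (lay h i).card ≤ (univ : Finset (ZMod q)).card := card_le_univ _
      _ = q := by rw [card_univ, ZMod.card]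
  have hsum : ∑ x, h x = ∑ i ∈ range T, (lay h i).card := by
    rw [layer_sum h hq]
    symm
    apply Finset.sum_subset
    · intro i hi; rw [mem_range] at hi ⊢; omega
    · intro i _ hi
      rw [mem_range, not_lt] at hi
      exact hzero i hi
  rw [hsum]
  apply numeric q (q / 2) (D + 1) T (fun i => (lay h i).card) rfl (by omega) hbq hpos hzero hTq
  intro i j hi hj hij hS
  obtain ⟨x0, hx0⟩ := card_pos.mp (hpos i hi)
  obtain ⟨y0, hy0⟩ := card_pos.mp (hpos j hj)
  have key : ∀ x ∈ lay h i, ∀ y ∈ lay h j, lee x y + (i + j + 3) / 2 ≤ D + 1 := by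
    intro x hx y hy
    simp only [lay, mem_filter, mem_univ, true_and] at hx hy
    have h1 := hd x y (by omega) (by omega)
    by_cases hc : D - lee x y < q / 2
    · have h2 := hp x y (by omega) (by omega) hc
      omega
    · omega
  have hk0 := key x0 hx0 y0 hy0
  have h3 := cross (lay h i) (lay h j) ⟨x0, hx0⟩ ⟨y0, hy0⟩ (D + 1 - (i + j + 3) / 2) (by omega) (by
    intro x hx y hy
    have := key x hx y hy
    omega)
  show (lay h i).card + (lay h j).card + 2 * ((i + j + 3) / 2) ≤ 2 * (D + 1) + 2
  omega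

lemma upper2 {q : ℕ} [NeZero q] (D : ℕ) (hD : D < 2 * (q / 2)) (A : Finset (Fin 2 → ZMod q))
    (hA : DiamLE A D) :
    A.card ≤ max (q * (D + 1 - q / 2)) (((D + 1) ^ 2 + 1) / 2) := by
  classical
  set F : ZMod q → Finset (ZMod q) := fun x => univ.filter (fun y => (![x, y] : Fin 2 → ZMod q) ∈ A)
    with hF
  have hcard : A.card = ∑ x, (F x).card := by
    rw [Finset.card_eq_sum_card_fiberwise (f := fun v : Fin 2 → ZMod q => v 0) (t := univ)
      (fun _ _ => mem_coe.mpr (mem_univ _))]
    apply Finset.sum_congr rfl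
    intro x _
    apply Finset.card_bij' (fun v _ => v 1) (fun y _ => ![x, y])
    · intro v hv
      simp only [mem_filter] at hv
      simp only [hF, mem_filter, mem_univ, true_and]
      have : (![x, v 1] : Fin 2 → ZMod q) = v := by
        ext k; fin_cases k
        · simp [hv.2]
        · simp
      rw [this]; exact hv.1
    · intro y hy
      simp only [hF, mem_filter, mem_univ, true_and] at hy
      simp only [mem_filter]
      exact ⟨hy, by simp⟩
    · intro v hv
      simp only [mem_filter] at hv
      ext k; fin_cases k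
      · simp [hv.2]
      · simp
    · intro y _
      simp
  rw [hcard]
  apply fun_bound D hD (fun x => (F x).card)
  · intro x
    calc (F x).card ≤ (univ : Finset (ZMod q)).card := card_le_univ _
      _ = q := by rw [card_univ, ZMod.card]
  · intro x y hx hy
    obtain ⟨a, ha⟩ := card_pos.mp hx
    obtain ⟨b, hb⟩ := card_pos.mp hy
    simp only [hF, mem_filter, mem_univ, true_and] at ha hb
    have := hA _ ha _ hb
    simp only [leeDist, Fin.sum_univ_two, Matrix.cons_val_zero, Matrix.cons_val_one] at this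
    omega
  · intro x y hx hy hk
    apply cross (F x) (F y) (card_pos.mp hx) (card_pos.mp hy) _ hk
    intro a ha b hb
    simp only [hF, mem_filter, mem_univ, true_and] at ha hb
    have := hA _ ha _ hb
    simp only [leeDist, Fin.sum_univ_two, Matrix.cons_val_zero, Matrix.cons_val_one] at this
    omega

lemma upper1 {q : ℕ} [NeZero q] (D : ℕ) (hD : D < q / 2) (A : Finset (Fin 1 → ZMod q))
    (hA : DiamLE A D) : A.card ≤ D + 1 := by
  classical
  rcases A.eq_empty_or_nonempty with h0 | hne
  · subst h0; simp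
  have hinj : Function.Injective (fun v : Fin 1 → ZMod q => v 0) := by
    intro v w h
    ext k; fin_cases k; exact h
  have hc : (A.image (fun v => v 0)).card = A.card := card_image_of_injective _ hinj
  have h1 := cross (A.image (fun v => v 0)) (A.image (fun v => v 0)) (hne.image _) (hne.image _)
    D hD (by
      intro f hf g hg
      rw [mem_image] at hf hg
      obtain ⟨v, hv, rfl⟩ := hf
      obtain ⟨w, hw, rfl⟩ := hg
      have := hA v hv w hw
      simpa [leeDist] using this)
  omega

lemma NL_eq {q n D N : ℕ} (A : Finset (Fin n → ZMod q)) (hA : DiamLE A D) (hc : A.card = N)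
    (hup : ∀ B : Finset (Fin n → ZMod q), DiamLE B D → B.card ≤ N) : NL q n D = N := by
  apply IsGreatest.csSup_eq
  refine ⟨⟨A, hA, hc⟩, ?_⟩
  rintro k ⟨B, hB, rfl⟩
  exact hup B hB

/-- The strip: the first coordinate is restricted to `z` consecutive residues. -/
def strip (q k z : ℕ) [NeZero q] : Finset (Fin (k + 1) → ZMod q) :=
  univ.filter (fun x => (x 0).val < z)

lemma lee_le_of_val {q : ℕ} [NeZero q] (a b : ZMod q) (z : ℕ) (ha : a.val < z) (hb : b.val < z) :
    lee a b ≤ z - 1 := by
  have h := lee_le_natAbs a b ((a.val : ℤ) - b.val) (by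
    push_cast
    simp only [ZMod.natCast_val, ZMod.cast_id', id_eq])
  omega

lemma strip_diam {q : ℕ} [NeZero q] (k z : ℕ) : DiamLE (strip q k z) (z - 1 + k * (q / 2)) := by
  intro x hx y hy
  simp only [strip, mem_filter, mem_univ, true_and] at hx hy
  unfold leeDist
  rw [Fin.sum_univ_succ]
  apply add_le_add (lee_le_of_val _ _ z hx hy)
  calc ∑ i : Fin k, lee (x i.succ) (y i.succ) ≤ ∑ _i : Fin k, q / 2 :=
        Finset.sum_le_sum (fun i _ => lee_le_half _ _)
    _ = k * (q / 2) := by simp

lemma card_val_lt {q : ℕ} [NeZero q] (z : ℕ) (hz : z ≤ q) :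
    (univ.filter (fun a : ZMod q => a.val < z)).card = z := by
  have : (univ.filter (fun a : ZMod q => a.val < z)).card = (range z).card := by
    apply Finset.card_bij' (fun (a : ZMod q) _ => (a.val : ℕ)) (fun (i : ℕ) _ => (i : ZMod q))
    · intro a ha; simpa using ha
    · intro i hi
      simp only [mem_range] at hi
      simp only [mem_filter, mem_univ, true_and]
      rwa [ZMod.val_natCast_of_lt (by omega)]
    · intro a _; simp
    · intro i hi
      simp only [mem_range] at hi
      exact ZMod.val_natCast_of_lt (by omega)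
  rw [this, card_range]

lemma strip_card {q : ℕ} [NeZero q] (k z : ℕ) (hz : z ≤ q) :
    (strip q k z).card = z * q ^ k := by
  classical
  have : strip q k z = Fintype.piFinset (fun i : Fin (k + 1) =>
      if i = 0 then univ.filter (fun a : ZMod q => a.val < z) else univ) := by
    ext x
    simp only [strip, mem_filter, mem_univ, true_and, Fintype.mem_piFinset]
    constructor
    · intro h i
      by_cases hi : i = 0
      · subst hi; simpa using h
      · simp [hi]
    · intro h
      simpa using h 0
  rw [this, Fintype.card_piFinset, Fin.prod_univ_succ]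
  simp only [if_true, Fin.succ_ne_zero, if_false]
  rw [card_val_lt z hz]
  simp [ZMod.card]

/-- Index pairs of the diamond. -/
def pairs (S : ℕ) : Finset (ℕ × ℕ) := (range S ×ˢ range S).filter (fun p => p.1 % 2 = p.2 % 2)

lemma card_pairs (S : ℕ) : (pairs S).card = (S ^ 2 + 1) / 2 := by
  classical
  have h1 : ∀ S : ℕ, ((range S).filter (fun i => i % 2 = 0)).card = (S + 1) / 2 := by
    intro S
    induction S with
    | zero => simp
    | succ S ih =>
      rw [Finset.range_add_one, Finset.filter_insert]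
      split_ifs with h
      · rw [card_insert_of_notMem (by simp), ih]; omega
      · rw [ih]; omega
  have h2 : ∀ S : ℕ, ((range S).filter (fun i => ¬ i % 2 = 0)).card = S / 2 := by
    intro S
    have := Finset.card_filter_add_card_filter_not (s := range S) (fun i => i % 2 = 0)
    rw [h1, card_range] at this
    omega
  have h3 : pairs S = ((range S).filter (fun i => i % 2 = 0)) ×ˢ ((range S).filter (fun i => i % 2 = 0))
      ∪ ((range S).filter (fun i => ¬ i % 2 = 0)) ×ˢ ((range S).filter (fun i => ¬ i % 2 = 0)) := by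
    ext ⟨u, v⟩
    simp only [pairs, mem_filter, mem_product, mem_union, mem_range]
    constructor
    · rintro ⟨⟨hu, hv⟩, h⟩
      by_cases h0 : u % 2 = 0
      · left; omega
      · right; omega
    · rintro (⟨⟨hu, hu2⟩, hv, hv2⟩ | ⟨⟨hu, hu2⟩, hv, hv2⟩)
      · omega
      · omega
  rw [h3, card_union_of_disjoint, card_product, card_product, h1, h2]
  · rcases Nat.even_or_odd' S with ⟨c, rfl | rfl⟩
    · have e1 : (2 * c + 1) / 2 = c := by omega
      have e2 : 2 * c / 2 = c := by omega
      have e3 : (2 * c) ^ 2 + 1 = 2 * (2 * (c * c)) + 1 := by ring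
      rw [e1, e2, e3]; omega
    · have e1 : (2 * c + 1 + 1) / 2 = c + 1 := by omega
      have e2 : (2 * c + 1) / 2 = c := by omega
      have e3 : (2 * c + 1) ^ 2 + 1 = 2 * ((c + 1) * (c + 1) + c * c) := by ring
      rw [e1, e2, e3]; omega
  · rw [Finset.disjoint_left]
    rintro ⟨u, v⟩ h4 h5
    simp only [mem_product, mem_filter] at h4 h5
    exact h5.1.2 h4.1.2

/-- The diamond: all points `((u + v)/2, (u - v)/2)` with `0 ≤ u, v ≤ D` of equal parity. -/
def diamond (q D : ℕ) [NeZero q] : Finset (Fin 2 → ZMod q) :=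
  (pairs (D + 1)).image (fun p =>
    ![((((p.1 : ℤ) + p.2) / 2 : ℤ) : ZMod q), ((((p.1 : ℤ) - p.2) / 2 : ℤ) : ZMod q)])

lemma diamond_diam {q : ℕ} [NeZero q] (D : ℕ) : DiamLE (diamond q D) D := by
  intro x hx y hy
  simp only [diamond, mem_image, pairs, mem_filter, mem_product, mem_range] at hx hy
  obtain ⟨⟨u, v⟩, ⟨⟨hu, hv⟩, huv⟩, rfl⟩ := hx
  obtain ⟨⟨u', v'⟩, ⟨⟨hu', hv'⟩, huv'⟩, rfl⟩ := hy
  simp only at hu hv huv hu' hv' huv'
  simp only [leeDist, Fin.sum_univ_two, Matrix.cons_val_zero, Matrix.cons_val_one]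
  have h1 := lee_le_natAbs ((((u : ℤ) + v) / 2 : ℤ) : ZMod q) ((((u' : ℤ) + v') / 2 : ℤ) : ZMod q)
    (((u : ℤ) + v) / 2 - ((u' : ℤ) + v') / 2) (by push_cast; ring)
  have h2 := lee_le_natAbs ((((u : ℤ) - v) / 2 : ℤ) : ZMod q) ((((u' : ℤ) - v') / 2 : ℤ) : ZMod q)
    (((u : ℤ) - v) / 2 - ((u' : ℤ) - v') / 2) (by push_cast; ring)
  omega

lemma int_cast_inj {q : ℕ} (a b : ℤ) (h : (a : ZMod q) = b) (hlt : (a - b).natAbs < q) : a = b := by
  rw [ZMod.intCast_eq_intCast_iff_dvd_sub] at h
  have := Int.eq_zero_of_abs_lt_dvd h (by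
    rw [abs_sub_comm, Int.abs_eq_natAbs]
    exact_mod_cast hlt)
  omega

lemma diamond_card {q : ℕ} [NeZero q] (D : ℕ) (hD : D < q) :
    (diamond q D).card = ((D + 1) ^ 2 + 1) / 2 := by
  rw [diamond, card_image_of_injOn, card_pairs]
  rintro ⟨u, v⟩ hx ⟨u', v'⟩ hy h
  rw [mem_coe] at hx hy
  simp only [pairs, mem_filter, mem_product, mem_range] at hx hy
  obtain ⟨⟨hu, hv⟩, huv⟩ := hx
  obtain ⟨⟨hu', hv'⟩, huv'⟩ := hy
  have e0 := congrFun h 0
  have e1 := congrFun h 1
  simp only [Matrix.cons_val_zero, Matrix.cons_val_one] at e0 e1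
  have f0 := int_cast_inj _ _ e0 (by omega)
  have f1 := int_cast_inj _ _ e1 (by omega)
  simp only [Prod.mk.injEq]
  omega

lemma univ_diam {q n : ℕ} [NeZero q] (D : ℕ) (hD : n * (q / 2) ≤ D)
    (A : Finset (Fin n → ZMod q)) : DiamLE A D := by
  intro x _ y _
  refine le_trans ?_ hD
  unfold leeDist
  calc ∑ i : Fin n, lee (x i) (y i) ≤ ∑ _i : Fin n, q / 2 :=
        Finset.sum_le_sum (fun i _ => lee_le_half _ _)
    _ = n * (q / 2) := by simp

lemma diam_mono {q n : ℕ} {D E : ℕ} (h : D ≤ E) (A : Finset (Fin n → ZMod q)) (hA : DiamLE A D) :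
    DiamLE A E := fun x hx y hy => le_trans (hA x hx y hy) h


lemma leeDist_cons {q n : ℕ} (s t : ZMod q) (x y : Fin n → ZMod q) :
    leeDist (Fin.cons s x : Fin (n + 1) → ZMod q) (Fin.cons t y : Fin (n + 1) → ZMod q)
      = lee s t + leeDist x y := by
  unfold leeDist
  rw [Fin.sum_univ_succ]
  simp

lemma layer_sum' {α : Type*} [Fintype α] [DecidableEq α] (h : α → ℕ) (N : ℕ) (hN : ∀ x, h x ≤ N) :
    ∑ x, h x = ∑ i ∈ range N, (univ.filter (fun x => i < h x)).card := by
  have h1 : ∀ x : α, h x = ∑ i ∈ range N, (if i < h x then 1 else 0) := by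
    intro x
    rw [← Finset.card_filter]
    have : (range N).filter (fun i => i < h x) = range (h x) := by
      ext i
      simp only [mem_filter, mem_range]
      have := hN x
      omega
    rw [this, card_range]
  calc ∑ x, h x = ∑ x : α, ∑ i ∈ range N, (if i < h x then 1 else 0) :=
        Finset.sum_congr rfl (fun x _ => h1 x)
    _ = ∑ i ∈ range N, ∑ x : α, (if i < h x then 1 else 0) := Finset.sum_comm
    _ = ∑ i ∈ range N, (univ.filter (fun x => i < h x)).card := by
      apply Finset.sum_congr rfl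
      intro i _
      rw [Finset.card_filter]

lemma upper_small {q : ℕ} [NeZero q] (n : ℕ) : ∀ D, D < q / 2 →
    ∀ A : Finset (Fin n → ZMod q), DiamLE A D → A.card ≤ (D + n).choose n := by
  classical
  induction n with
  | zero =>
    intro D _ A _
    rw [Nat.choose_zero_right]
    calc A.card ≤ (univ : Finset (Fin 0 → ZMod q)).card := card_le_univ _
      _ = 1 := by simp
  | succ n ih =>
    intro D hD A hA
    set F : (Fin n → ZMod q) → Finset (ZMod q) :=
      fun x => univ.filter (fun t => (Fin.cons t x : Fin (n + 1) → ZMod q) ∈ A) with hF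
    have hcard : A.card = ∑ x, (F x).card := by
      rw [Finset.card_eq_sum_card_fiberwise (f := fun v : Fin (n + 1) → ZMod q => Fin.tail v)
        (t := univ) (fun _ _ => mem_coe.mpr (mem_univ _))]
      apply Finset.sum_congr rfl
      intro x _
      apply Finset.card_bij' (fun (v : Fin (n + 1) → ZMod q) _ => v 0)
        (fun (t : ZMod q) _ => (Fin.cons t x : Fin (n + 1) → ZMod q))
      · intro v hv
        simp only [mem_filter] at hv
        simp only [hF, mem_filter, mem_univ, true_and]
        rw [← hv.2, Fin.cons_self_tail]; exact hv.1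
      · intro y hy
        simp only [hF, mem_filter, mem_univ, true_and] at hy
        simp only [mem_filter]
        exact ⟨hy, by simp⟩
      · intro v hv
        simp only [mem_filter] at hv
        rw [← hv.2, Fin.cons_self_tail]
      · intro y _
        simp
    have hcross : ∀ x y, 0 < (F x).card → 0 < (F y).card →
        leeDist x y ≤ D ∧ (F x).card + (F y).card ≤ 2 * (D - leeDist x y) + 2 := by
      intro x y hx hy
      obtain ⟨a, ha⟩ := card_pos.mp hx
      obtain ⟨b, hb⟩ := card_pos.mp hy
      constructor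
      · simp only [hF, mem_filter, mem_univ, true_and] at ha hb
        have := hA _ ha _ hb
        rw [leeDist_cons] at this
        omega
      · apply cross (F x) (F y) (card_pos.mp hx) (card_pos.mp hy) _ (by omega)
        intro a ha b hb
        simp only [hF, mem_filter, mem_univ, true_and] at ha hb
        have := hA _ ha _ hb
        rw [leeDist_cons] at this
        omega
    have hle : ∀ x, (F x).card ≤ D + 1 := by
      intro x
      rcases Nat.eq_zero_or_pos (F x).card with h0 | hpos
      · omega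
      · have := (hcross x x hpos hpos).2
        omega
    rw [hcard, layer_sum' (fun x => (F x).card) (D + 1) hle]
    have hlay : ∀ i ∈ range (D + 1),
        (univ.filter (fun x => i < (F x).card)).card ≤ (D - i + n).choose n := by
      intro i hi
      rw [mem_range] at hi
      apply ih (D - i) (by omega)
      intro x hx y hy
      simp only [mem_filter, mem_univ, true_and] at hx hy
      have := hcross x y (by omega) (by omega)
      omega
    refine le_trans (Finset.sum_le_sum hlay) ?_
    have hr := Finset.sum_range_reflect (fun i => (i + n).choose n) (D + 1)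
    have he : ∑ i ∈ range (D + 1), (D - i + n).choose n =
        ∑ i ∈ range (D + 1), (D + 1 - 1 - i + n).choose n := rfl
    rw [he, hr, Nat.sum_range_add_choose]
    exact le_of_eq (by ring_nf)

lemma upper_line {q : ℕ} [NeZero q] (n D : ℕ) (hn : 1 ≤ n) (hD : D < n * (q / 2))
    (A : Finset (Fin n → ZMod q)) (hA : DiamLE A D) :
    A.card ≤ q ^ (n - 1) * (D / n + 1) := by
  classical
  have hDn : D / n < q / 2 := by
    rw [Nat.div_lt_iff_lt_mul (by omega)]; rwa [mul_comm] at hD
  have hq0 : 0 < q := Nat.pos_of_ne_zero (NeZero.ne q)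
  have hline : ∀ x : Fin n → ZMod q,
      (univ.filter (fun t : ZMod q => (fun i => x i + t) ∈ A)).card ≤ D / n + 1 := by
    intro x
    set L := univ.filter (fun t : ZMod q => (fun i => x i + t) ∈ A) with hL
    rcases L.eq_empty_or_nonempty with h0 | hne
    · rw [h0]; simp
    have h1 := cross L L hne hne (D / n) hDn (by
      intro s hs t ht
      simp only [hL, mem_filter, mem_univ, true_and] at hs ht
      have h2 := hA _ hs _ ht
      have h3 : leeDist (fun i => x i + s) (fun i => x i + t) = n * lee s t := by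
        unfold leeDist
        have : ∀ i : Fin n, lee (x i + s) (x i + t) = lee s t := by
          intro i
          unfold lee
          rw [add_sub_add_left_eq_sub]
        rw [Finset.sum_congr rfl (fun i _ => this i)]
        simp
      rw [h3] at h2
      rw [Nat.le_div_iff_mul_le (by omega), mul_comm]
      exact h2)
    omega
  have hdouble : ∑ x : Fin n → ZMod q, (univ.filter (fun t : ZMod q => (fun i => x i + t) ∈ A)).card
      = q * A.card := by
    have e1 : ∀ x : Fin n → ZMod q, (univ.filter (fun t : ZMod q => (fun i => x i + t) ∈ A)).card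
        = ∑ t : ZMod q, (if (fun i => x i + t) ∈ A then 1 else 0) := by
      intro x; rw [Finset.card_filter]
    rw [Finset.sum_congr rfl (fun x _ => e1 x), Finset.sum_comm]
    have e2 : ∀ t : ZMod q, ∑ x : Fin n → ZMod q, (if (fun i => x i + t) ∈ A then 1 else 0)
        = A.card := by
      intro t
      rw [← Finset.card_filter]
      apply Finset.card_bij' (fun x _ => fun i => x i + t) (fun x _ => fun i => x i - t)
      · intro x hx
        simpa using hx
      · intro x hx
        simpa using hx
      · intro x _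
        ext i; simp
      · intro x _
        ext i; simp
    rw [Finset.sum_congr rfl (fun t _ => e2 t)]
    simp [ZMod.card]
  have hle : ∑ x : Fin n → ZMod q, (univ.filter (fun t : ZMod q => (fun i => x i + t) ∈ A)).card
      ≤ q ^ n * (D / n + 1) := by
    calc ∑ x : Fin n → ZMod q, (univ.filter (fun t : ZMod q => (fun i => x i + t) ∈ A)).card
        ≤ ∑ _x : Fin n → ZMod q, (D / n + 1) := Finset.sum_le_sum (fun x _ => hline x)
      _ = q ^ n * (D / n + 1) := by
        rw [Finset.sum_const, card_univ, smul_eq_mul, Fintype.card_fun, ZMod.card, Fintype.card_fin]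
  rw [hdouble] at hle
  have hqn : q ^ n = q * q ^ (n - 1) := by
    rw [← pow_succ', Nat.sub_add_cancel hn]
  rw [hqn, mul_assoc] at hle
  exact Nat.le_of_mul_le_mul_left hle hq0

/-- The taxi distance on `ℤ^n`. -/
def taxiDist {n : ℕ} (x y : Fin n → ℤ) : ℕ := ∑ i, (x i - y i).natAbs

/-- The diametric number of `ℤ^n` for the taxi metric. -/
noncomputable def NT (n D : ℕ) : ℕ :=
  sSup {k : ℕ | ∃ A : Finset (Fin n → ℤ), (∀ x ∈ A, ∀ y ∈ A, taxiDist x y ≤ D) ∧ A.card = k}



/-- The number of integer points of the `n`-dimensional cross-polytope of radius `r`. -/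
def ballNumber (n r : ℕ) : ℕ := ∑ k ∈ range (n + 1), 2 ^ k * n.choose k * r.choose k

/-- Integer points `x` of `ℤ^n` with `∑ |x_i| ≤ r`. -/
noncomputable def ballZ (n r : ℕ) : Finset (Fin n → ℤ) :=
  (Fintype.piFinset (fun _ : Fin n => Finset.Icc (-(r : ℤ)) r)).filter
    (fun x => ∑ i, (x i).natAbs ≤ r)

lemma mem_ballZ {n r : ℕ} (x : Fin n → ℤ) : x ∈ ballZ n r ↔ ∑ i, (x i).natAbs ≤ r := by
  simp only [ballZ, mem_filter, Fintype.mem_piFinset, Finset.mem_Icc]
  constructor
  · exact fun h => h.2
  · intro h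
    refine ⟨fun i => ?_, h⟩
    have h2 : (x i).natAbs ≤ ∑ i, (x i).natAbs :=
      Finset.single_le_sum (f := fun i => (x i).natAbs) (fun _ _ => Nat.zero_le _) (mem_univ i)
    omega

lemma sum_Icc_natAbs (F : ℕ → ℕ) (r : ℕ) :
    ∑ j ∈ Finset.Icc (-(r : ℤ)) r, F j.natAbs = F 0 + 2 * ∑ i ∈ range r, F (i + 1) := by
  induction r with
  | zero => simp
  | succ r ih =>
    have h : Finset.Icc (-((r + 1 : ℕ) : ℤ)) ((r + 1 : ℕ) : ℤ) =
        insert (((r + 1 : ℕ) : ℤ)) (insert (-((r + 1 : ℕ) : ℤ)) (Finset.Icc (-(r : ℤ)) r)) := by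
      ext j
      simp only [Finset.mem_Icc, Finset.mem_insert]
      omega
    rw [h, Finset.sum_insert, Finset.sum_insert, ih, Finset.sum_range_succ]
    · have e1 : (((r + 1 : ℕ) : ℤ)).natAbs = r + 1 := by omega
      have e2 : (-((r + 1 : ℕ) : ℤ)).natAbs = r + 1 := by omega
      rw [e1, e2]; ring
    · simp only [Finset.mem_Icc]; omega
    · simp only [Finset.mem_insert, Finset.mem_Icc]; omega

lemma ballZ_succ (n r : ℕ) :
    (ballZ (n + 1) r).card = (ballZ n r).card + 2 * ∑ i ∈ range r, (ballZ n i).card := by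
  classical
  have h1 : (ballZ (n + 1) r).card =
      ∑ j ∈ Finset.Icc (-(r : ℤ)) r, (ballZ n (r - j.natAbs)).card := by
    rw [Finset.card_eq_sum_card_fiberwise (f := fun v : Fin (n + 1) → ℤ => v 0)
      (t := Finset.Icc (-(r : ℤ)) r)]
    · apply Finset.sum_congr rfl
      intro j hj
      rw [Finset.mem_Icc] at hj
      apply Finset.card_bij' (fun (v : Fin (n + 1) → ℤ) _ => Fin.tail v)
        (fun (x : Fin n → ℤ) _ => (Fin.cons j x : Fin (n + 1) → ℤ))
      · intro v hv
        rw [mem_filter, mem_ballZ, Fin.sum_univ_succ] at hv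
        rw [mem_ballZ]
        have h3 : ∑ i : Fin n, (Fin.tail v i).natAbs = ∑ i : Fin n, (v i.succ).natAbs := rfl
        have h5 : v 0 = j := hv.2
        rw [h3]
        have h4 := hv.1
        rw [h5] at h4
        omega
      · intro x hx
        rw [mem_ballZ] at hx
        rw [mem_filter, mem_ballZ, Fin.sum_univ_succ]
        simp only [Fin.cons_zero, Fin.cons_succ]
        refine ⟨by omega, trivial⟩
      · intro v hv
        rw [mem_filter] at hv
        have h5 : v 0 = j := hv.2
        rw [← h5, Fin.cons_self_tail]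
      · intro x _
        simp
    · intro v hv
      rw [mem_coe, mem_ballZ, Fin.sum_univ_succ] at hv
      rw [mem_coe, Finset.mem_Icc]
      show -(r : ℤ) ≤ v 0 ∧ v 0 ≤ (r : ℤ)
      omega
  rw [h1, sum_Icc_natAbs (fun a => (ballZ n (r - a)).card) r]
  simp only [Nat.sub_zero]
  congr 2
  have := Finset.sum_range_reflect (fun i => (ballZ n i).card) r
  rw [← this]
  apply Finset.sum_congr rfl
  intro i hi
  rw [mem_range] at hi
  congr 2
  omega

lemma sum_choose (r k : ℕ) : ∑ i ∈ range r, i.choose k = r.choose (k + 1) := by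
  induction r with
  | zero => simp
  | succ r ih => rw [Finset.sum_range_succ, ih, Nat.choose_succ_succ]; ring

lemma ballNumber_succ (n r : ℕ) :
    ballNumber (n + 1) r = ballNumber n r + 2 * ∑ i ∈ range r, ballNumber n i := by
  unfold ballNumber
  have h1 : 2 * ∑ i ∈ range r, ∑ k ∈ range (n + 1), 2 ^ k * n.choose k * i.choose k =
      ∑ k ∈ range (n + 1), 2 ^ (k + 1) * n.choose k * r.choose (k + 1) := by
    rw [Finset.sum_comm, Finset.mul_sum]
    apply Finset.sum_congr rfl
    intro k _
    rw [← Finset.mul_sum, sum_choose]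
    ring
  rw [h1, Finset.sum_range_succ' (fun k => 2 ^ k * (n + 1).choose k * r.choose k)]
  have h2 : ∑ k ∈ range (n + 1), 2 ^ (k + 1) * (n + 1).choose (k + 1) * r.choose (k + 1) =
      ∑ k ∈ range (n + 1), 2 ^ (k + 1) * n.choose k * r.choose (k + 1) +
      ∑ k ∈ range (n + 1), 2 ^ (k + 1) * n.choose (k + 1) * r.choose (k + 1) := by
    rw [← Finset.sum_add_distrib]
    apply Finset.sum_congr rfl
    intro k _
    rw [Nat.choose_succ_succ]
    ring
  rw [h2, Finset.sum_range_succ (fun k => 2 ^ (k + 1) * n.choose (k + 1) * r.choose (k + 1)),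
    Finset.sum_range_succ' (fun k => 2 ^ k * n.choose k * r.choose k)]
  simp
  ring

lemma ballZ_card (n : ℕ) : ∀ r, (ballZ n r).card = ballNumber n r := by
  induction n with
  | zero =>
    intro r
    have : ballZ 0 r = univ := by
      apply Finset.eq_univ_iff_forall.mpr
      intro x
      rw [mem_ballZ]
      simp
    rw [this]
    simp [ballNumber]
  | succ n ih =>
    intro r
    rw [ballZ_succ, ballNumber_succ, ih r, Finset.sum_congr rfl (fun i _ => ih i)]

lemma lower_ball {q : ℕ} [NeZero q] (n D : ℕ) (hD : D < q) : ballNumber n (D / 2) ≤ NL q n D := by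
  classical
  apply le_csSup
  · refine ⟨q ^ n, ?_⟩
    rintro k ⟨B, _, rfl⟩
    calc B.card ≤ (univ : Finset (Fin n → ZMod q)).card := card_le_univ _
      _ = q ^ n := by rw [card_univ, Fintype.card_fun, ZMod.card, Fintype.card_fin]
  · refine ⟨(ballZ n (D / 2)).image (fun x => fun i => ((x i : ℤ) : ZMod q)), ?_, ?_⟩
    · intro u hu v hv
      rw [mem_image] at hu hv
      obtain ⟨x, hx, rfl⟩ := hu
      obtain ⟨y, hy, rfl⟩ := hv
      rw [mem_ballZ] at hx hy
      unfold leeDist
      have h1 : ∀ i, lee (((x i : ℤ) : ZMod q)) (((y i : ℤ) : ZMod q)) ≤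
          (x i).natAbs + (y i).natAbs := by
        intro i
        refine le_trans (lee_le_natAbs _ _ (x i - y i) (by push_cast; ring)) ?_
        omega
      calc ∑ i, lee (((x i : ℤ) : ZMod q)) (((y i : ℤ) : ZMod q)) ≤
          ∑ i, ((x i).natAbs + (y i).natAbs) := Finset.sum_le_sum (fun i _ => h1 i)
        _ = ∑ i, (x i).natAbs + ∑ i, (y i).natAbs := Finset.sum_add_distrib
        _ ≤ D := by omega
    · rw [card_image_of_injOn, ballZ_card]
      intro x hx y hy hxy
      rw [mem_coe, mem_ballZ] at hx hy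
      ext i
      apply int_cast_inj (q := q) _ _ (congrFun hxy i)
      have h2 : (x i).natAbs ≤ ∑ i, (x i).natAbs :=
        Finset.single_le_sum (f := fun i => (x i).natAbs) (fun _ _ => Nat.zero_le _) (mem_univ i)
      have h3 : (y i).natAbs ≤ ∑ i, (y i).natAbs :=
        Finset.single_le_sum (f := fun i => (y i).natAbs) (fun _ _ => Nat.zero_le _) (mem_univ i)
      omega

lemma NL_le {q n D N : ℕ} (hup : ∀ B : Finset (Fin n → ZMod q), DiamLE B D → B.card ≤ N) :
    NL q n D ≤ N := by
  apply csSup_le
  · exact ⟨0, ∅, by intro x hx; simp at hx, by simp⟩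
  · rintro k ⟨B, hB, rfl⟩
    exact hup B hB


/-- Position of a residue in the order `0, 1, -1, 2, -2, …`. -/
def pos {q : ℕ} (t : ZMod q) : ℕ :=
  if 0 < t.valMinAbs then 2 * t.valMinAbs.natAbs - 1 else 2 * t.valMinAbs.natAbs

lemma pos_lt {q : ℕ} [NeZero q] (t : ZMod q) : pos t < q := by
  have h := ZMod.valMinAbs_mem_Ioc t
  have hq0 : 0 < q := Nat.pos_of_ne_zero (NeZero.ne q)
  rw [Set.mem_Ioc] at h
  unfold pos
  split_ifs <;> omega

lemma pos_inj {q : ℕ} [NeZero q] : Function.Injective (pos : ZMod q → ℕ) := by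
  intro s t h
  apply ZMod.valMinAbs_inj.mp
  unfold pos at h
  split_ifs at h <;> omega

lemma card_pos_lt {q : ℕ} [NeZero q] (s : ℕ) (hs : s ≤ q) :
    (univ.filter (fun t : ZMod q => pos t < s)).card = s := by
  classical
  have himg : (univ.image (pos : ZMod q → ℕ)) = range q := by
    apply Finset.eq_of_subset_of_card_le
    · intro k hk
      rw [mem_image] at hk
      obtain ⟨t, -, rfl⟩ := hk
      exact mem_range.mpr (pos_lt t)
    · rw [card_range, card_image_of_injective _ pos_inj, card_univ, ZMod.card]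
  have h2 : ((univ.filter (fun t : ZMod q => pos t < s)).image pos) = range s := by
    ext k
    rw [mem_image, mem_range]
    constructor
    · rintro ⟨t, ht, rfl⟩
      exact (mem_filter.mp ht).2
    · intro hk
      have : k ∈ univ.image (pos : ZMod q → ℕ) := by rw [himg, mem_range]; omega
      rw [mem_image] at this
      obtain ⟨t, -, rfl⟩ := this
      exact ⟨t, by simp [hk], rfl⟩
  rw [← card_image_of_injective _ pos_inj, h2, card_range]

/-- The fibre of `A` through `x` in direction `i`. -/
def fib {q n : ℕ} [NeZero q] (A : Finset (Fin n → ZMod q)) (i : Fin n) (x : Fin n → ZMod q) :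
    Finset (ZMod q) := univ.filter (fun t => Function.update x i t ∈ A)

/-- Symmetrization in direction `i`. -/
def symm {q n : ℕ} [NeZero q] (A : Finset (Fin n → ZMod q)) (i : Fin n) :
    Finset (Fin n → ZMod q) := univ.filter (fun x => pos (x i) < (fib A i x).card)

lemma fib_update {q n : ℕ} [NeZero q] (A : Finset (Fin n → ZMod q)) (i : Fin n)
    (x : Fin n → ZMod q) (t : ZMod q) : fib A i (Function.update x i t) = fib A i x := by
  unfold fib
  simp

lemma fib_symm {q n : ℕ} [NeZero q] (A : Finset (Fin n → ZMod q)) (i : Fin n)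
    (x : Fin n → ZMod q) : (fib (symm A i) i x).card = (fib A i x).card := by
  have h : fib (symm A i) i x = univ.filter (fun t : ZMod q => pos t < (fib A i x).card) := by
    ext t
    rw [fib, mem_filter, symm, mem_filter, fib_update]
    simp
  rw [h, card_pos_lt]
  calc (fib A i x).card ≤ (univ : Finset (ZMod q)).card := card_le_univ _
    _ = q := by rw [card_univ, ZMod.card]

lemma sum_fib {q n : ℕ} [NeZero q] (A : Finset (Fin n → ZMod q)) (i : Fin n) :
    ∑ x, (fib A i x).card = q * A.card := by
  classical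
  have e1 : ∀ x : Fin n → ZMod q, (fib A i x).card
      = ∑ t : ZMod q, (if Function.update x i t ∈ A then 1 else 0) := by
    intro x; rw [fib, Finset.card_filter]
  rw [Finset.sum_congr rfl (fun x _ => e1 x), ← Finset.sum_product']
  have e2 : ∑ p : (Fin n → ZMod q) × ZMod q, (if Function.update p.1 i p.2 ∈ A then 1 else 0) =
      ∑ p : (Fin n → ZMod q) × ZMod q, (if p.1 ∈ A then 1 else 0) := by
    apply Fintype.sum_bijective
      (fun p : (Fin n → ZMod q) × ZMod q => (Function.update p.1 i p.2, p.1 i))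
    · apply Function.Involutive.bijective
      rintro ⟨x, t⟩
      simp
    · intro p; rfl
  rw [Finset.univ_product_univ, e2, Fintype.sum_prod_type, Finset.sum_comm]
  simp [ZMod.card]

lemma symm_card {q n : ℕ} [NeZero q] (A : Finset (Fin n → ZMod q)) (i : Fin n) :
    (symm A i).card = A.card := by
  have h1 := sum_fib A i
  have h2 := sum_fib (symm A i) i
  rw [Finset.sum_congr rfl (fun x _ => fib_symm A i x), h1] at h2
  have hq0 : 0 < q := Nat.pos_of_ne_zero (NeZero.ne q)
  exact (Nat.eq_of_mul_eq_mul_left hq0 h2).symm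

lemma leeDist_split {q n : ℕ} (x y : Fin n → ZMod q) (i : Fin n) :
    leeDist x y = lee (x i) (y i) + ∑ j ∈ univ.erase i, lee (x j) (y j) := by
  unfold leeDist
  exact (Finset.add_sum_erase univ (fun j => lee (x j) (y j)) (mem_univ i)).symm

lemma leeDist_update {q n : ℕ} (x y : Fin n → ZMod q) (i : Fin n) (s t : ZMod q) :
    leeDist (Function.update x i s) (Function.update y i t)
      = lee s t + ∑ j ∈ univ.erase i, lee (x j) (y j) := by
  rw [leeDist_split _ _ i]
  simp only [Function.update_self]
  congr 1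
  apply Finset.sum_congr rfl
  intro j hj
  have hji : j ≠ i := (mem_erase.mp hj).1
  rw [Function.update_of_ne hji, Function.update_of_ne hji]

lemma fib_cross {q n : ℕ} [NeZero q] (D : ℕ) (hD : D < q / 2) (A : Finset (Fin n → ZMod q))
    (hA : DiamLE A D) (i : Fin n) (x y : Fin n → ZMod q) (hx : 0 < (fib A i x).card)
    (hy : 0 < (fib A i y).card) :
    ∑ j ∈ univ.erase i, lee (x j) (y j) ≤ D ∧
    (fib A i x).card + (fib A i y).card ≤
      2 * (D - ∑ j ∈ univ.erase i, lee (x j) (y j)) + 2 := by
  constructor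
  · obtain ⟨s, hs⟩ := card_pos.mp hx
    obtain ⟨t, ht⟩ := card_pos.mp hy
    rw [fib, mem_filter] at hs ht
    have h := hA _ hs.2 _ ht.2
    rw [leeDist_update] at h
    omega
  · apply cross _ _ (card_pos.mp hx) (card_pos.mp hy) _ (by omega)
    intro s hs t ht
    rw [fib, mem_filter] at hs ht
    have h := hA _ hs.2 _ ht.2
    rw [leeDist_update] at h
    omega

lemma symm_diam {q n : ℕ} [NeZero q] (D : ℕ) (hD : D < q / 2) (A : Finset (Fin n → ZMod q))
    (hA : DiamLE A D) (i : Fin n) : DiamLE (symm A i) D := by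
  intro x hx y hy
  rw [symm, mem_filter] at hx hy
  have hx2 := hx.2
  have hy2 := hy.2
  have hc := fib_cross D hD A hA i x y (by omega) (by omega)
  rw [leeDist_split x y i]
  have hl : lee (x i) (y i) ≤ ((x i).valMinAbs - (y i).valMinAbs).natAbs := by
    apply lee_le_natAbs
    push_cast
    simp
  unfold pos at hx2 hy2
  split_ifs at hx2 hy2 <;> omega

lemma symm_box {q n : ℕ} [NeZero q] (D : ℕ) (hD : D < q / 2) (A : Finset (Fin n → ZMod q))
    (hA : DiamLE A D) (s : Finset (Fin n)) :
    ∃ B : Finset (Fin n → ZMod q), B.card = A.card ∧ DiamLE B D ∧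
      ∀ i ∈ s, ∀ x ∈ B, pos (x i) ≤ D := by
  classical
  induction s using Finset.induction_on with
  | empty => exact ⟨A, rfl, hA, by simp⟩
  | insert j s hj ih =>
    obtain ⟨B, hBc, hBd, hBs⟩ := ih
    refine ⟨symm B j, by rw [symm_card, hBc], symm_diam D hD B hBd j, ?_⟩
    intro i hi x hx
    rw [symm, mem_filter] at hx
    have hx2 := hx.2
    rcases Finset.mem_insert.mp hi with rfl | hi
    · have := (fib_cross D hD B hBd i x x (by omega) (by omega)).2
      omega
    · have hpos : 0 < (fib B j x).card := by omega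
      obtain ⟨t, ht⟩ := card_pos.mp hpos
      rw [fib, mem_filter] at ht
      have hne : i ≠ j := fun h => hj (h ▸ hi)
      have := hBs i hi _ ht.2
      rwa [Function.update_of_ne hne] at this

lemma NL_eq_NT {q n D : ℕ} [NeZero q] (h : D < q / 2) : NL q n D = NT n D := by
  classical
  unfold NL NT
  congr 1
  ext k
  constructor
  · rintro ⟨A, hA, rfl⟩
    obtain ⟨B, hBc, hBd, hB⟩ := symm_box D h A hA univ
    have hcong : ∀ x ∈ B, ∀ y ∈ B, ∀ i,
        (x i).valMinAbs - (y i).valMinAbs = (x i - y i).valMinAbs := by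
      intro x hx y hy i
      have h1 := hB i (mem_univ i) x hx
      have h2 := hB i (mem_univ i) y hy
      have h3 : (x i - y i).valMinAbs.natAbs ≤ q / 2 := ZMod.natAbs_valMinAbs_le _
      apply int_cast_inj (q := q)
      · push_cast
        simp
      · unfold pos at h1 h2
        split_ifs at h1 h2 <;> omega
    refine ⟨B.image (fun x => fun i => (x i).valMinAbs), ?_, ?_⟩
    · intro u hu v hv
      rw [mem_image] at hu hv
      obtain ⟨x, hx, rfl⟩ := hu
      obtain ⟨y, hy, rfl⟩ := hv
      have h1 := hBd x hx y hy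
      unfold taxiDist
      unfold leeDist at h1
      have h2 : ∀ i, ((x i).valMinAbs - (y i).valMinAbs).natAbs = lee (x i) (y i) := by
        intro i
        rw [hcong x hx y hy i, lee_eq]
      rw [Finset.sum_congr rfl (fun i _ => h2 i)]
      exact h1
    · rw [← hBc]
      apply card_image_of_injOn
      intro x hx y hy hxy
      ext i
      exact ZMod.valMinAbs_inj.mp (congrFun hxy i)
  · rintro ⟨B, hB, rfl⟩
    refine ⟨B.image (fun x => fun i => ((x i : ℤ) : ZMod q)), ?_, ?_⟩
    · intro u hu v hv
      rw [mem_image] at hu hv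
      obtain ⟨x, hx, rfl⟩ := hu
      obtain ⟨y, hy, rfl⟩ := hv
      refine le_trans ?_ (hB x hx y hy)
      unfold leeDist taxiDist
      apply Finset.sum_le_sum
      intro i _
      exact lee_le_natAbs _ _ _ (by push_cast; ring)
    · apply card_image_of_injOn
      intro x hx y hy hxy
      ext i
      apply int_cast_inj (q := q) _ _ (congrFun hxy i)
      have h1 := hB x hx y hy
      have h2 : (x i - y i).natAbs ≤ ∑ i, (x i - y i).natAbs :=
        Finset.single_le_sum (f := fun i => (x i - y i).natAbs)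
        (fun _ _ => Nat.zero_le _) (mem_univ i)
      unfold taxiDist at h1
      omega

/-- `A` is a down-set for the order `0, 1, -1, 2, -2, …` in every direction of `s`. -/
def DownIn {q n : ℕ} (s : Finset (Fin n)) (A : Finset (Fin n → ZMod q)) : Prop :=
  ∀ i ∈ s, ∀ x ∈ A, ∀ t : ZMod q, pos t ≤ pos (x i) → Function.update x i t ∈ A

lemma symm_diam_all {q n : ℕ} [NeZero q] (D : ℕ) (A : Finset (Fin n → ZMod q))
    (hA : DiamLE A D) (i : Fin n) : DiamLE (symm A i) D := by
  intro x hx y hy
  rw [symm, mem_filter] at hx hy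
  have hx2 := hx.2
  have hy2 := hy.2
  have hfx : 0 < (fib A i x).card := by omega
  have hfy : 0 < (fib A i y).card := by omega
  have hR : ∑ j ∈ univ.erase i, lee (x j) (y j) ≤ D := by
    obtain ⟨s, hs⟩ := card_pos.mp hfx
    obtain ⟨t, ht⟩ := card_pos.mp hfy
    rw [fib, mem_filter] at hs ht
    have h := hA _ hs.2 _ ht.2
    rw [leeDist_update] at h
    omega
  rw [leeDist_split x y i]
  by_cases hk : D - ∑ j ∈ univ.erase i, lee (x j) (y j) < q / 2
  · have hc := cross (fib A i x) (fib A i y) (card_pos.mp hfx) (card_pos.mp hfy) _ hk (by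
      intro s hs t ht
      rw [fib, mem_filter] at hs ht
      have h := hA _ hs.2 _ ht.2
      rw [leeDist_update] at h
      omega)
    have hl : lee (x i) (y i) ≤ ((x i).valMinAbs - (y i).valMinAbs).natAbs := by
      apply lee_le_natAbs
      push_cast
      simp
    unfold pos at hx2 hy2
    split_ifs at hx2 hy2 <;> omega
  · have := lee_le_half (x i) (y i)
    omega

lemma symm_down {q n : ℕ} [NeZero q] (A : Finset (Fin n → ZMod q)) (s : Finset (Fin n))
    (hs : DownIn s A) (j : Fin n) : DownIn (insert j s) (symm A j) := by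
  classical
  intro i hi x hx t ht
  rw [symm, mem_filter] at hx ⊢
  have hx2 := hx.2
  refine ⟨mem_univ _, ?_⟩
  by_cases hij : i = j
  · subst hij
    rw [Function.update_self, fib_update]
    omega
  · have his : i ∈ s := (Finset.mem_insert.mp hi).resolve_left hij
    rw [Function.update_of_ne (fun h => hij h.symm)]
    refine lt_of_lt_of_le hx2 (card_le_card ?_)
    intro u hu
    rw [fib, mem_filter] at hu ⊢
    refine ⟨mem_univ _, ?_⟩
    rw [Function.update_comm hij]
    apply hs i his _ hu.2
    rwa [Function.update_of_ne hij]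

lemma exists_down {q n : ℕ} [NeZero q] (D : ℕ) (A : Finset (Fin n → ZMod q))
    (hA : DiamLE A D) (s : Finset (Fin n)) :
    ∃ B : Finset (Fin n → ZMod q), B.card = A.card ∧ DiamLE B D ∧ DownIn s B := by
  classical
  induction s using Finset.induction_on with
  | empty => exact ⟨A, rfl, hA, by intro i hi; simp at hi⟩
  | insert j s _ ih =>
    obtain ⟨B, hBc, hBd, hBs⟩ := ih
    exact ⟨symm B j, by rw [symm_card, hBc], symm_diam_all D B hBd j, symm_down B s hBs j⟩

lemma NL_attained {q n D : ℕ} [NeZero q] :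
    ∃ A : Finset (Fin n → ZMod q), DiamLE A D ∧ A.card = NL q n D := by
  have h := Nat.sSup_mem (s := {k : ℕ | ∃ A : Finset (Fin n → ZMod q), DiamLE A D ∧ A.card = k})
    ⟨0, ∅, by intro x hx; simp at hx, by simp⟩ ⟨q ^ n, by
      rintro k ⟨B, _, rfl⟩
      calc B.card ≤ (univ : Finset (Fin n → ZMod q)).card := card_le_univ _
        _ = q ^ n := by rw [card_univ, Fintype.card_fun, ZMod.card, Fintype.card_fin]⟩
  exact h

lemma NL_of_isometry {q q' n n' D : ℕ} (e : (Fin n → ZMod q) ≃ (Fin n' → ZMod q'))
    (he : ∀ x y, leeDist (e x) (e y) = leeDist x y) : NL q n D = NL q' n' D := by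
  classical
  unfold NL
  congr 1
  ext k
  constructor
  · rintro ⟨A, hA, rfl⟩
    refine ⟨A.map e.toEmbedding, ?_, card_map _⟩
    intro u hu v hv
    rw [Finset.mem_map] at hu hv
    obtain ⟨x, hx, rfl⟩ := hu
    obtain ⟨y, hy, rfl⟩ := hv
    show leeDist (e x) (e y) ≤ D
    rw [he]; exact hA x hx y hy
  · rintro ⟨A, hA, rfl⟩
    refine ⟨A.map e.symm.toEmbedding, ?_, card_map _⟩
    intro u hu v hv
    rw [Finset.mem_map] at hu hv
    obtain ⟨x, hx, rfl⟩ := hu
    obtain ⟨y, hy, rfl⟩ := hv
    show leeDist (e.symm x) (e.symm y) ≤ D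
    rw [← he, Equiv.apply_symm_apply, Equiv.apply_symm_apply]; exact hA x hx y hy

/-- The Gray map. -/
def gray (a : ZMod 4) : Fin 2 → ZMod 2 :=
  if a = 0 then ![0, 0] else if a = 1 then ![0, 1] else if a = 2 then ![1, 1] else ![1, 0]

lemma gray_bij : Function.Bijective gray := by
  have hinj : Function.Injective gray := by decide
  refine ⟨hinj, ?_⟩
  apply ((Fintype.bijective_iff_injective_and_card gray).mpr ⟨hinj, by simp [ZMod.card]⟩).2

lemma gray_isom (a b : ZMod 4) : ∑ i : Fin 2, lee (gray a i) (gray b i) = lee a b := by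
  revert a b; decide

lemma NL_four (n D : ℕ) : NL 4 n D = NL 2 (n * 2) D := by
  classical
  set e : (Fin n → ZMod 4) ≃ (Fin (n * 2) → ZMod 2) :=
    ((Equiv.arrowCongr (Equiv.refl (Fin n)) (Equiv.ofBijective gray gray_bij)).trans
      (Equiv.curry (Fin n) (Fin 2) (ZMod 2)).symm).trans
      (Equiv.arrowCongr finProdFinEquiv (Equiv.refl (ZMod 2))) with hedef
  apply NL_of_isometry e
  intro x y
  unfold leeDist
  rw [← Equiv.sum_comp finProdFinEquiv, Fintype.sum_prod_type]
  apply Finset.sum_congr rfl
  intro i _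
  rw [← gray_isom]
  apply Finset.sum_congr rfl
  intro j _
  simp [hedef, Equiv.arrowCongr, Equiv.curry]


/-- The diametric problem for the Lee metric on `(ℤ/q)^n`, with `m = ⌊q/2⌋`, for all `q ≥ 2`;
and the isometry that settles `q = 4` by means of `q = 2`. -/
theorem result : (∀ (q : ℕ) [NeZero q], 2 ≤ q →
    -- dimension one
    (∀ D, D < q / 2 → NL q 1 D = D + 1) ∧
    -- dimension two: complete solution, with extremal sets
    (∀ D, D < 2 * (q / 2) →
      NL q 2 D = max (q * (D + 1 - q / 2)) (((D + 1) ^ 2 + 1) / 2) ∧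
      (DiamLE (diamond q D) D ∧ (diamond q D).card = ((D + 1) ^ 2 + 1) / 2) ∧
      (q / 2 ≤ D → DiamLE (strip q 1 (D + 1 - q / 2)) D ∧
        (strip q 1 (D + 1 - q / 2)).card = q * (D + 1 - q / 2))) ∧
    -- every dimension, `D < ⌊q/2⌋`: the Lee problem is the taxi problem of `ℤ^n`
    (∀ n D, D < q / 2 → NL q n D = NT n D ∧
      ballNumber n (D / 2) ≤ NL q n D ∧ NL q n D ≤ (D + n).choose n) ∧
    -- every dimension, every `D` below the diameter of the whole space
    (∀ n D, 1 ≤ n → D < n * (q / 2) → NL q n D ≤ q ^ (n - 1) * (D / n + 1)) ∧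
    -- every dimension, one below the diameter of the whole space
    (∀ n, 1 ≤ n → NL q n (n * (q / 2) - 1) = q ^ (n - 1) * (q / 2)) ∧
    -- every dimension, at least the diameter of the whole space
    (∀ n D, n * (q / 2) ≤ D → NL q n D = q ^ n) ∧
    -- every dimension, every `D`: some optimal set is a down-set for the order `0, 1, -1, 2, …`
    (∀ n D, ∃ A : Finset (Fin n → ZMod q), DiamLE A D ∧ A.card = NL q n D ∧
      ∀ x ∈ A, ∀ (i : Fin n) (t : ZMod q), pos t ≤ pos (x i) → Function.update x i t ∈ A)) ∧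
    -- `q = 4`, every dimension, every `D`
    (∀ n D, NL 4 n D = NL 2 (n * 2) D) := by
  refine ⟨?_, fun n D => NL_four n D⟩
  intro q _ hq
  have hm : 1 ≤ q / 2 := by omega
  refine ⟨?_, ?_, ?_, ?_, ?_, ?_, ?_⟩
  · intro D hD
    apply NL_eq (strip q 0 (D + 1))
    · exact diam_mono (by omega) _ (strip_diam 0 (D + 1))
    · rw [strip_card 0 (D + 1) (by omega)]; simp
    · intro B hB; exact upper1 D hD B hB
  · intro D hD
    have hdd : DiamLE (diamond q D) D ∧ (diamond q D).card = ((D + 1) ^ 2 + 1) / 2 :=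
      ⟨diamond_diam D, diamond_card D (by omega)⟩
    have hss : q / 2 ≤ D → DiamLE (strip q 1 (D + 1 - q / 2)) D ∧
        (strip q 1 (D + 1 - q / 2)).card = q * (D + 1 - q / 2) := by
      intro h
      refine ⟨diam_mono (by omega) _ (strip_diam 1 (D + 1 - q / 2)), ?_⟩
      rw [strip_card 1 _ (by omega), pow_one, mul_comm]
    refine ⟨?_, hdd, hss⟩
    rcases le_total (q * (D + 1 - q / 2)) (((D + 1) ^ 2 + 1) / 2) with h | h
    · rw [max_eq_right h]
      apply NL_eq (diamond q D) hdd.1 hdd.2
      intro B hB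
      have := upper2 D hD B hB
      rwa [max_eq_right h] at this
    · rw [max_eq_left h]
      have hD2 : q / 2 ≤ D := by
        by_contra hcon
        have h0 : D + 1 - q / 2 = 0 := by omega
        rw [h0, mul_zero] at h
        have h1 : 1 ≤ ((D + 1) ^ 2 + 1) / 2 := by
          rw [Nat.le_div_iff_mul_le (by norm_num)]
          have : 1 ≤ (D + 1) ^ 2 := Nat.one_le_pow _ _ (by omega)
          omega
        omega
      apply NL_eq (strip q 1 (D + 1 - q / 2)) (hss hD2).1 (hss hD2).2
      intro B hB
      have := upper2 D hD B hB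
      rwa [max_eq_left h] at this
  · intro n D hD
    exact ⟨NL_eq_NT hD, lower_ball n D (by omega), NL_le (fun B hB => upper_small n D hD B hB)⟩
  · intro n D hn hD
    exact NL_le (fun B hB => upper_line n D hn hD B hB)
  · intro n hn
    obtain ⟨k, rfl⟩ := Nat.exists_eq_add_of_le' hn
    have e1 : (k + 1) * (q / 2) = k * (q / 2) + q / 2 := by ring
    apply NL_eq (strip q k (q / 2))
    · refine diam_mono ?_ _ (strip_diam k (q / 2))
      omega
    · rw [strip_card k (q / 2) (by omega), Nat.add_sub_cancel, mul_comm]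
    · intro B hB
      have h1 := upper_line (k + 1) ((k + 1) * (q / 2) - 1) hn (by omega) B hB
      have h2 : ((k + 1) * (q / 2) - 1) / (k + 1) + 1 ≤ q / 2 := by
        have : ((k + 1) * (q / 2) - 1) / (k + 1) < q / 2 := by
          rw [Nat.div_lt_iff_lt_mul (by omega), mul_comm (q / 2)]
          omega
        omega
      exact le_trans h1 (Nat.mul_le_mul_left _ h2)
  · intro n D hD
    apply NL_eq univ (univ_diam D hD _)
    · rw [card_univ, Fintype.card_fun, ZMod.card, Fintype.card_fin]
    · intro B _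
      calc B.card ≤ (univ : Finset (Fin n → ZMod q)).card := card_le_univ _
        _ = q ^ n := by rw [card_univ, Fintype.card_fun, ZMod.card, Fintype.card_fin]
  · intro n D
    obtain ⟨A, hA, hAc⟩ := NL_attained (q := q) (n := n) (D := D)
    obtain ⟨B, hBc, hBd, hB⟩ := exists_down D A hA univ
    exact ⟨B, hBd, by rw [hBc, hAc], fun x hx i t ht => hB i (mem_univ i) x hx t ht⟩

end Pool.Agent.Results.MP_72646e_co.LeeAnticodes
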